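import Mathlib
import Pool.Agent.N759.UC.Finite
import Pool.Agent.H715R2.CountableValues
import Pool.Agent.V7H37.HC.Group
import Pool.Agent.V7H37.HC.Seq

/-! # MP_edeaa2_an: codes of rank r, in particular of the full rank d - 1

Let `d ≥ 3`, `r ≥ 0`, and let `a 0, ..., a (r - 1)` be positive diagonal `d × d` matrices of
determinant one, such that for all `z ∈ ℤ^r`, `z ≠ 0`, some value occurs among the diagonal entries
of `a^z = ∏ (a t)^(z t)` with a multiplicity prime to `d`. If `d` is prime, it is enough that the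
matrices are multiplicatively independent; `r = d - 1` is possible, and then they generate a lattice
in the group of all positive diagonal matrices of determinant one whenever they generate a discrete
group.

Let `g` be a real `d × d` matrix with determinant `±δ` and `F` the product of the linear forms given
by its rows, `|F| ≥ ν > 0` at the nonzero integer points. There is a constant `C = C(d, δ, ν)` such
that for all `z ∈ ℤ^r` there is `V(z) ∈ GL_d(ℤ)` for which the entries of `a^z g V(z)` are at most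
`C` in absolute value. The code of such a family gives at `z` the `r` matrices
`V(z)⁻¹ V(z + e_t)`; it is an `r`-dimensional array of finitely many symbols.

We show: for all `C` and `k ∈ ℕ^r` there are `M` and a finite set `S` of such matrices, whose forms
are all proportional to integral forms, with the following property. Let `g` be any matrix as above
which is not equivalent to an element of `S` (under diagonal matrices of determinant `±1` and
`GL_d(ℤ)`), and `V` any family for `g` with the constant `C`. Every window of side `M` in `ℤ^r`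
contains a box of `⌈k_0/κ⌉ ⋯ ⌈k_(r-1)/κ⌉` positions at which the `k_0 × ⋯ × k_(r-1)` blocks of the
code are pairwise different, where `κ = 3r² + 4r + 3`. In particular every such window contains at
least `∏ k_t / κ^r` different blocks. For the full rank `r = d - 1` and cubes this is of the order
`k^(d-1)`.

This holds for all counterexamples to the conjecture of Cassels and Swinnerton-Dyer, with the same
`M`, and unconditionally for all forms which are proportional to integral forms outside finitely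
many classes. The proof uses a theorem on configurations `c` on `ℤ^r` (file `HC/Comb.lean`): if
every position of a large window has a nonzero local period of size `s`, on a box of size
`O(r²) s`, then some vector of size `s` is a local period along a long strip in its direction.
There are no global periods in general for `r ≥ 3`. -/

set_option autoImplicit false

open Filter Topology

namespace Pool.Agent.Results.MP_edeaa2_an.HigherRankComplexityH37

/-- the product of the linear forms given by the rows of `g`, at an integer point -/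
noncomputable def F {d : ℕ} (g : Matrix (Fin d) (Fin d) ℝ) (x : Fin d → ℤ) : ℝ :=
  ∏ i : Fin d, ∑ j : Fin d, g i j * (x j : ℝ)

/-- the form is proportional to an integral form -/
def Integral {d : ℕ} (g : Matrix (Fin d) (Fin d) ℝ) : Prop :=
  ∃ c : ℝ, c ≠ 0 ∧ ∀ m : Fin d →₀ ℕ, ∃ z : ℤ, MvPolynomial.coeff m
    (c • (∏ i : Fin d, ∑ j : Fin d,
      MvPolynomial.C (g i j) * MvPolynomial.X j : MvPolynomial (Fin d) ℝ)) = (z : ℝ)

/-- the matrices with absolute determinant `δ` and form at least `ν` in absolute value at the nonzero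
integer points -/
def System (d : ℕ) (δ ν : ℝ) : Set (Matrix (Fin d) (Fin d) ℝ) :=
  {g | |g.det| = δ ∧ ∀ x : Fin d → ℤ, x ≠ 0 → ν ≤ |F g x|}

/-- `g` is obtained from `g'` by a diagonal matrix of determinant `±1` and an element of `GL_d(ℤ)` -/
def Equivalent {d : ℕ} (g g' : Matrix (Fin d) (Fin d) ℝ) : Prop :=
  ∃ (c : Fin d → ℝ) (γ : Matrix (Fin d) (Fin d) ℤ), |∏ i, c i| = 1 ∧ |γ.det| = 1 ∧
    g = Matrix.diagonal c * g' * γ.map (Int.cast : ℤ → ℝ)

/-- the diagonal entries of `a ^ z` -/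
noncomputable def wt {d r : ℕ} (a : Fin r → Fin d → ℝ) (z : Fin r → ℤ) (i : Fin d) : ℝ :=
  ∏ t, a t i ^ z t

/-- `V z` has determinant `±1`, and the entries of `a ^ z g V(z)` are at most `C` in absolute
value. -/
def Good {d r : ℕ} (g : Matrix (Fin d) (Fin d) ℝ) (a : Fin r → Fin d → ℝ) (C : ℝ)
    (V : (Fin r → ℤ) → Matrix (Fin d) (Fin d) ℤ) : Prop :=
  ∀ z, |(V z).det| = 1 ∧ ∀ i k,
    |(Matrix.diagonal (wt a z) * g * (V z).map (Int.cast : ℤ → ℝ)) i k| ≤ C

/-- the code -/
noncomputable def code {d r : ℕ} (V : (Fin r → ℤ) → Matrix (Fin d) (Fin d) ℤ) (z : Fin r → ℤ) :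
    Fin r → Matrix (Fin d) (Fin d) ℤ :=
  fun t => (V z)⁻¹ * V (z + Pi.single t 1)

/-- the block of the code with the sides `k t` at the position `z` -/
noncomputable def block {d r : ℕ} (V : (Fin r → ℤ) → Matrix (Fin d) (Fin d) ℤ) (k : Fin r → ℕ)
    (z : Fin r → ℤ) : ((t : Fin r) → Fin (k t)) → Fin r → Matrix (Fin d) (Fin d) ℤ :=
  fun x => code V (fun t => z t + (x t : ℕ))

/-- the blocks at the positions `z + p`, `0 ≤ p t < k t / κ`, are pairwise different, where
`κ = 3 r ^ 2 + 4 r + 3` -/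
def Different {d r : ℕ} (V : (Fin r → ℤ) → Matrix (Fin d) (Fin d) ℤ) (k : Fin r → ℕ)
    (z : Fin r → ℤ) : Prop :=
  ∀ p q : Fin r → ℕ, (∀ t, (3 * r ^ 2 + 4 * r + 3) * p t < k t) →
    (∀ t, (3 * r ^ 2 + 4 * r + 3) * q t < k t) →
    block V k (fun t => z t + p t) = block V k (fun t => z t + q t) → p = q

/-- there is a family for `g` and a window of side `M` without good positions -/
def Bad {d r : ℕ} (a : Fin r → Fin d → ℝ) (C : ℝ) (k : Fin r → ℕ) (g : Matrix (Fin d) (Fin d) ℝ)
    (M : ℕ) : Prop :=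
  ∃ V, Good g a C V ∧ ∃ z₀ : Fin r → ℤ, ∀ z : Fin r → ℤ, (∀ t, z₀ t ≤ z t ∧ z t ≤ z₀ t + M) →
    ¬ Different V k z

lemma wt_pos {d r : ℕ} {a : Fin r → Fin d → ℝ} (ha : ∀ t i, 0 < a t i) (z : Fin r → ℤ) (i : Fin d) :
    0 < wt a z i := Finset.prod_pos fun t _ => zpow_pos (ha t i) _

lemma wt_prod {d r : ℕ} {a : Fin r → Fin d → ℝ} (ha1 : ∀ t, ∏ i, a t i = 1) (z : Fin r → ℤ) :
    ∏ i, wt a z i = 1 := by
  unfold wt
  rw [Finset.prod_comm]
  refine Finset.prod_eq_one fun t _ => ?_
  rw [Finset.prod_zpow, ha1, one_zpow]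

/-- sequences of bad matrices -/
theorem bad_seq {d r : ℕ} (hd : 3 ≤ d) (a : Fin r → Fin d → ℝ) (ha : ∀ t i, 0 < a t i)
    (ha1 : ∀ t, ∏ i, a t i = 1)
    (hab : ∀ z : Fin r → ℤ, z ≠ 0 → ∃ x : ℝ, Nat.Coprime (Nat.card {i // wt a z i = x}) d)
    {δ ν : ℝ} (hδ : 0 < δ) (hν : 0 < ν) (C : ℝ) (k : Fin r → ℕ)
    (g : ℕ → Matrix (Fin d) (Fin d) ℝ) (N : ℕ → ℕ) (hN : ∀ i, i ≤ N i)
    (hg : ∀ i, |(g i).det| = δ) (hnu : ∀ i, H715R2.HasNu (g i) ν)
    (hbad : ∀ i, Bad a C k (g i) (N i)) :
    ∃ s : ℕ → ℕ, (∀ i, i ≤ s i) ∧ (∀ i, H715R2.PropInt (g (s i))) ∧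
      ∀ i j, Pool.Agent.N759.UC.Eqv (g (s i)) (g (s j)) := by
  classical
  choose V hV z₀ hwin using hbad
  have hu : ∀ i z, IsUnit (V i z) := fun i z =>
    (Matrix.isUnit_iff_isUnit_det _).2 (Int.isUnit_iff_abs_eq.2 (hV i z).1)
  choose U hU using hu
  -- repetitions
  have hrep : ∀ i, ∀ z : Fin r → ℤ, (∀ t, z₀ i t ≤ z t ∧ z t ≤ z₀ i t + (N i : ℕ)) →
      Pool.Agent.V7H37.HC.Rep (Pool.Agent.V7H37.HC.gcode (U i)) k z := by
    intro i z hz
    have hnd := hwin i z hz
    unfold Different at hnd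
    push Not at hnd
    obtain ⟨p, q, hp, hq, heq, hne⟩ := hnd
    refine ⟨p, q, hne, hp, hq, fun x hx => ?_⟩
    have hgc : ∀ (y : Fin r → ℤ) (t : Fin r), ((Pool.Agent.V7H37.HC.gcode (U i) y t :
        (Matrix (Fin d) (Fin d) ℤ)ˣ) : Matrix (Fin d) (Fin d) ℤ) = code (V i) y t := by
      intro y t
      unfold Pool.Agent.V7H37.HC.gcode code
      rw [Units.val_mul, Matrix.coe_units_inv, hU, hU]
    have h1 := congrFun heq (fun t => ⟨x t, hx t⟩)
    funext t
    refine Units.ext ?_
    rw [hgc, hgc]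
    exact congrFun h1 t
  obtain ⟨S, hS⟩ := Pool.Agent.V7H37.HC.group_strip (Matrix (Fin d) (Fin d) ℤ)ˣ k
  exact Pool.Agent.V7H37.HC.seq_main_gen hd hδ hν (wt a) (wt_pos ha)
    (fun z w i => by
      unfold wt
      rw [← Finset.prod_mul_distrib]
      exact Finset.prod_congr rfl fun t _ => by rw [Pi.add_apply, zpow_add₀ (ha t i).ne'])
    (wt_prod ha1)
    (fun z hz => by
      obtain ⟨x, hx⟩ := hab z hz
      refine ⟨x, ?_⟩
      rwa [Nat.card_eq_fintype_card, Fintype.card_subtype] at hx)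
    (C := C) (S' := S) g hg hnu U
    (fun i z t x => by
      have h1 := (hV i z).2 t x
      rw [hU]
      exact h1)
    (fun m => by
      obtain ⟨M, hM⟩ := hS m
      refine ⟨max m M, le_max_left _ _, ?_⟩
      obtain ⟨z, v, -, hv, hvS, hj⟩ := hM (U (max m M)) (z₀ (max m M))
        (fun z hz => hrep _ z fun t => ⟨(hz t).1, (hz t).2.trans (by
          have h1 := hN (max m M)
          have h2 := le_max_right m M
          have h3 : (M : ℤ) ≤ (N (max m M) : ℕ) := by exact_mod_cast h2.trans h1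
          linarith)⟩)
      exact ⟨z, v, hv, hvS, hj⟩)

theorem result (d r : ℕ) (hd : 3 ≤ d) (a : Fin r → Fin d → ℝ) (ha : ∀ t i, 0 < a t i)
    (ha1 : ∀ t, ∏ i, a t i = 1)
    (hab : (d.Prime ∧ ∀ z : Fin r → ℤ, (∀ i, wt a z i = 1) → z = 0) ∨
      ∀ z : Fin r → ℤ, z ≠ 0 → ∃ x : ℝ, Nat.Coprime (Nat.card {i // wt a z i = x}) d)
    (δ ν : ℝ) (hδ : 0 < δ) (hν : 0 < ν) :
    (∃ C : ℝ, ∀ g ∈ System d δ ν, ∃ V, Good g a C V) ∧
    ∀ (C : ℝ) (k : Fin r → ℕ), ∃ (M : ℕ) (S : Set (Matrix (Fin d) (Fin d) ℝ)), S.Finite ∧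
      (∀ g ∈ S, g ∈ System d δ ν ∧ Integral g) ∧
      ∀ g ∈ System d δ ν, (Integral g ∧ ∃ g' ∈ S, Equivalent g g') ∨
        ∀ V, Good g a C V → ∀ z₀ : Fin r → ℤ,
          (∃ z : Fin r → ℤ, (∀ t, z₀ t ≤ z t ∧ z t ≤ z₀ t + M) ∧ Different V k z) ∧
          ((∏ t, k t : ℕ) : ℕ∞) ≤ (3 * r ^ 2 + 4 * r + 3) ^ r *
            {B | ∃ z : Fin r → ℤ, (∀ t, z₀ t ≤ z t ∧ z t ≤ z₀ t + M) ∧ B = block V k z}.encard := by
  -- for prime `d` the second hypothesis follows from the first
  have hab' : ∀ z : Fin r → ℤ, z ≠ 0 → ∃ x : ℝ, Nat.Coprime (Nat.card {i // wt a z i = x}) d := by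
    rcases hab with ⟨hp, hind⟩ | hab
    swap
    · exact hab
    classical
    intro z hz
    have hprod := wt_prod ha1 z
    have hpos := wt_pos ha z
    obtain ⟨i, t, hit⟩ : ∃ i t, wt a z i ≠ wt a z t := by
      by_contra hcon
      push Not at hcon
      have h1 : ∀ i, wt a z i = 1 := by
        intro i
        have h2 : (wt a z i) ^ d = 1 := by
          rw [← hprod, Finset.prod_congr rfl fun t _ => hcon t i, Finset.prod_const,
            Finset.card_univ, Fintype.card_fin]
        exact (pow_eq_one_iff_of_nonneg (hpos i).le (by omega)).1 h2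
      exact hz (hind z h1)
    refine ⟨wt a z i, ?_⟩
    rw [Nat.card_eq_fintype_card, Fintype.card_subtype]
    have h1 : 0 < (Finset.univ.filter fun t => wt a z t = wt a z i).card :=
      Finset.card_pos.2 ⟨i, by simp⟩
    have h2 : (Finset.univ.filter fun t => wt a z t = wt a z i).card < d := by
      have h3 : (Finset.univ.filter fun t => wt a z t = wt a z i) ⊂ Finset.univ := by
        refine ⟨Finset.subset_univ _, fun hsub => ?_⟩
        have h4 := hsub (Finset.mem_univ t)
        rw [Finset.mem_filter] at h4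
        exact hit h4.2.symm
      have h5 := Finset.card_lt_card h3
      rwa [Finset.card_univ, Fintype.card_fin] at h5
    exact (Nat.coprime_of_lt_prime h1.ne' h2 hp).symm
  constructor
  · obtain ⟨R, hR⟩ := H715R2.exists_bound (d := d) (by omega) δ ν hδ hν
    refine ⟨R, fun g hg => ?_⟩
    have hex : ∀ z : Fin r → ℤ, ∃ V : Matrix (Fin d) (Fin d) ℤ, |V.det| = 1 ∧ ∀ i k,
        |(Matrix.diagonal (wt a z) * g * V.map (Int.cast : ℤ → ℝ)) i k| ≤ R := by
      intro z
      have hprod := wt_prod ha1 z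
      obtain ⟨γ, hγ, hγR⟩ := hR (Matrix.diagonal (wt a z) * g)
        (by rw [Matrix.det_mul, Matrix.det_diagonal, hprod, one_mul]; exact hg.1) (fun x hx => by
          rw [H715R2.FF_diag_mul, hprod, one_mul]
          exact hg.2 x hx)
      exact ⟨γ, Int.isUnit_iff_abs_eq.1 hγ, hγR⟩
    choose V hV hV2 using hex
    exact ⟨V, fun z => ⟨hV z, hV2 z⟩⟩
  · intro C k
    obtain ⟨M, S, hS, hSm, hM⟩ := Pool.Agent.N759.UC.finite_classes d δ ν (Bad a C k)
      (fun g N hN hg hnu hbad => bad_seq hd a ha ha1 hab' hδ hν C k g N hN hg hnu hbad)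
    have hkS : ∀ t, k t ≤ ∑ t, k t := fun t =>
      Finset.single_le_sum (f := k) (fun i _ => Nat.zero_le _) (Finset.mem_univ t)
    refine ⟨M + ∑ t, k t, S, hS, fun g hg => ⟨⟨(hSm g hg).1, (hSm g hg).2.1⟩, (hSm g hg).2.2⟩,
      fun g hg => ?_⟩
    by_cases hbad : Bad a C k g M
    · exact Or.inl (hM g hg.1 hg.2 hbad)
    right
    intro V hV z₀
    obtain ⟨z, hz, hinj⟩ : ∃ z : Fin r → ℤ, (∀ t, z₀ t ≤ z t ∧ z t ≤ z₀ t + M) ∧
        Different V k z := by
      by_contra hcon
      push Not at hcon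
      exact hbad ⟨V, hV, z₀, hcon⟩
    refine ⟨⟨z, fun t => ⟨(hz t).1, (hz t).2.trans (by push_cast; have := hkS t; linarith [
      (Finset.sum_nonneg (s := Finset.univ) (f := fun t => (k t : ℤ)) fun i _ => by positivity)])⟩,
      hinj⟩, ?_⟩
    set κ : ℕ := 3 * r ^ 2 + 4 * r + 3 with hκ
    have hκ0 : 0 < κ := by omega
    set f : ((t : Fin r) → Fin ((k t + (κ - 1)) / κ)) →
        (((t : Fin r) → Fin (k t)) → Fin r → Matrix (Fin d) (Fin d) ℤ) :=
      fun x => block V k (fun t => z t + (x t : ℕ)) with hf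
    have hlt : ∀ (t : Fin r) (x : Fin ((k t + (κ - 1)) / κ)), κ * (x : ℕ) < k t := by
      intro t x
      have h1 := x.2
      have h2 : (x : ℕ) + 1 ≤ (k t + (κ - 1)) / κ := h1
      rw [Nat.le_div_iff_mul_le hκ0] at h2
      have h3 : ((x : ℕ) + 1) * κ = κ * x + κ := by ring
      omega
    have hfi : Function.Injective f := by
      intro x y hxy
      have h1 := hinj (fun t => (x t : ℕ)) (fun t => (y t : ℕ)) (fun t => hlt t _)
        (fun t => hlt t _) hxy
      funext t
      exact Fin.ext (congrFun h1 t)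
    have hsub : Set.range f ⊆ {B | ∃ z : Fin r → ℤ, (∀ t, z₀ t ≤ z t ∧
        z t ≤ z₀ t + ((M + ∑ t, k t : ℕ) : ℤ)) ∧ B = block V k z} := by
      rintro _ ⟨x, rfl⟩
      refine ⟨_, fun t => ?_, rfl⟩
      have h1 := hz t
      have h2 := hlt t (x t)
      have h3 := hkS t
      have h4 : (x t : ℕ) ≤ κ * (x t : ℕ) := Nat.le_mul_of_pos_left _ hκ0
      have h5 : ((x t : ℕ) : ℤ) ≤ ((∑ t, k t : ℕ) : ℤ) := by exact_mod_cast (by omega)
      constructor
      · show z₀ t ≤ z t + ((x t : ℕ) : ℤ)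
        have : (0 : ℤ) ≤ ((x t : ℕ) : ℤ) := Int.natCast_nonneg _
        linarith [h1.1]
      · show z t + ((x t : ℕ) : ℤ) ≤ z₀ t + ((M + ∑ t, k t : ℕ) : ℤ)
        rw [Nat.cast_add]
        linarith [h1.2]
    have h1 := Set.encard_le_encard hsub
    rw [← Set.image_univ, hfi.encard_image, Set.encard_univ, ENat.card_eq_coe_fintype_card,
      Fintype.card_pi] at h1
    simp only [Fintype.card_fin] at h1
    have h2 : ∏ t, k t ≤ κ ^ r * ∏ t, ((k t + (κ - 1)) / κ) := by
      have h3 : ∀ t, k t ≤ κ * ((k t + (κ - 1)) / κ) := by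
        intro t
        have h4 := Nat.div_add_mod (k t + (κ - 1)) κ
        have h5 := Nat.mod_lt (k t + (κ - 1)) hκ0
        omega
      calc ∏ t, k t ≤ ∏ t, (κ * ((k t + (κ - 1)) / κ)) :=
            Finset.prod_le_prod' fun t _ => h3 t
        _ = κ ^ r * ∏ t, ((k t + (κ - 1)) / κ) := by
            rw [Finset.prod_mul_distrib, Finset.prod_const, Finset.card_univ, Fintype.card_fin]
    calc ((∏ t, k t : ℕ) : ℕ∞) ≤ ((κ ^ r * ∏ t, ((k t + (κ - 1)) / κ) : ℕ) : ℕ∞) := by
          exact_mod_cast h2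
      _ = (3 * r ^ 2 + 4 * r + 3) ^ r * ((∏ t, ((k t + (κ - 1)) / κ) : ℕ) : ℕ∞) := by
          rw [Nat.cast_mul, Nat.cast_pow, hκ]
          push_cast
          rfl
      _ ≤ _ := by gcongr

end Pool.Agent.Results.MP_edeaa2_an.HigherRankComplexityH37
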