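import Mathlib
import Pool.Agent.V7H90.Iso.Final

/-! # MP_edeaa2_an: isolation over number fields

Let `g` be a real invertible `d × d` matrix, `F` the product of the linear forms given by its rows,
and let `h` be a limit of matrices `g_n = diag(a_n) g γ_n`, `∏ a_n = ±1`, `γ_n ∈ GL_d(ℤ)`.

1. Let `s` rows of `h` span a space with a basis `B_1, …, B_s` of vectors with coordinates in a real
number field `K` of degree `k`, `3 ≤ k ≤ d / s`.  Then one of the following holds.

* The values of `F` at integer points are dense in `ℝ`.
* The `s` rows of `h` vanish at a common nonzero integer point (and `F` takes arbitrarily small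
  values at nonzero integer points).
* `d = k s`, the field `K` is totally real and for all large `n` each row of `g_n` (so of `g γ_n`) is
  a real linear combination of `σ(B_1), …, σ(B_s)` with an embedding `σ` of `K`; each embedding
  belongs to `s` of the rows.  So `F ∘ γ_n` is the product over the embeddings `σ` of products of
  `s` real linear forms in the `σ(B_l · x)`.

2. For a real matrix `h` let `Z(h)` be the algebra of the rational matrices `T` with `h T h⁻¹`
diagonal.  Let `F` be bounded away from zero at the nonzero integer points.  Then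
`Z(h) = γ_n⁻¹ Z(g) γ_n` for all large `n`, or `Z(g)` consists of the scalar matrices, `Z(h)` has
dimension two and `d` is even.

For `s = 1` the first statement is the theorem of Cassels and Swinnerton-Dyer on forms with an
algebraic linear factor together with their isolation theorem (start file `AlgebraicFactor`); for
`Z(h)` of dimension `d` the second one is their isolation theorem.

The proof.  Let `h` be diagonalised by the field `K` of degree `k ≥ 3` and let `m → h` in the orbit
closure, `m = (1 + v) h`, where `v` does not respect the eigenspaces.  Units of `K` act on both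
sides; a suitable unit enlarges the block of `v` for the two embeddings with the largest entry and
makes all others small, so that in the limit `(1 + w) h` is in the orbit closure, with `w ≠ 0` in one
block.  The ratios of two conjugates of units are dense as `k ≥ 3`, so `(1 + t w) h` is in the orbit
closure for all `t > 0`, and the product changes its sign along this line at some integer point.  If
only `s` rows are given, then units contract the components of the other rows in this eigenspace.
In the limit the idempotent of one real place acts diagonally, and the argument of the rigidity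
theorem of the library (`Pool.Agent.Y327.rigid`) shows that the whole field does, or else that the
orbit closure contains a one-parameter family with a change of sign. -/

open Filter Topology Matrix

namespace Pool.Agent.Results.MP_edeaa2_an.IsolationH90

/-- the product of the linear forms given by the rows of `g` takes arbitrarily small values at
nonzero integer points -/
def SmallValues {d : ℕ} (g : Matrix (Fin d) (Fin d) ℝ) : Prop :=
  ∀ ε : ℝ, 0 < ε → ∃ x : Fin d → ℤ, x ≠ 0 ∧ |∏ i, ∑ j, g i j * (x j : ℝ)| < ε

/-- the values of the product of the linear forms given by the rows of `g` at nonzero integer points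
are dense in `ℝ` -/
def DenseValues {d : ℕ} (g : Matrix (Fin d) (Fin d) ℝ) : Prop :=
  ∀ t ε : ℝ, 0 < ε → ∃ x : Fin d → ℤ, x ≠ 0 ∧ |(∏ i, ∑ j, g i j * (x j : ℝ)) - t| < ε

/-- the rational matrices `T` for which `h T = D h` with a real diagonal matrix `D`; for invertible
`h` these are the `T` for which `h T h⁻¹` is diagonal -/
def Z {d : ℕ} (h : Matrix (Fin d) (Fin d) ℝ) : Set (Matrix (Fin d) (Fin d) ℚ) :=
  {T | ∃ D : Fin d → ℝ, h * T.map (fun q : ℚ => (q : ℝ)) = diagonal D * h}

/-- `h` is the limit of the matrices `diag(a_n) g γ_n`, where the entries of `a_n` have product `±1`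
and `γ_n` is integral of determinant `±1` -/
structure IsLimit {d : ℕ} (g h : Matrix (Fin d) (Fin d) ℝ) (a : ℕ → Fin d → ℝ)
    (γ : ℕ → Matrix (Fin d) (Fin d) ℤ) : Prop where
  prod : ∀ n, |∏ i, a n i| = 1
  det : ∀ n, IsUnit (γ n).det
  lim : Tendsto (fun n => diagonal (a n) * g * (γ n).map (Int.cast : ℤ → ℝ)) atTop (𝓝 h)

theorem result :
    -- 1. some rows span a space over a number field
    (∀ (d s : ℕ) (K : IntermediateField ℚ ℝ), FiniteDimensional ℚ K →
      3 ≤ Module.finrank ℚ K → 0 < s → s * Module.finrank ℚ K ≤ d →
      ∀ (B : Fin s → Fin d → K) (g h : Matrix (Fin d) (Fin d) ℝ) (a : ℕ → Fin d → ℝ)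
        (γ : ℕ → Matrix (Fin d) (Fin d) ℤ) (S : Finset (Fin d)),
      g.det ≠ 0 → IsLimit g h a γ → S.card = s →
      (∀ i ∈ S, ∃ c : Fin s → ℝ, ∀ j, h i j = ∑ l, c l * (B l j : ℝ)) →
      DenseValues g ∨
      (SmallValues g ∧ ∃ x : Fin d → ℤ, x ≠ 0 ∧ ∀ i ∈ S, ∑ j, h i j * (x j : ℝ) = 0) ∨
      (s * Module.finrank ℚ K = d ∧ ∃ σ : Fin d → K →+* ℝ,
        (∀ τ : K →+* ℂ, Nat.card {i // ∀ x, τ x = ((σ i x : ℝ) : ℂ)} = s) ∧
        ∀ᶠ n in atTop, ∀ i, ∃ c : Fin s → ℝ, ∀ j,
          (g * (γ n).map (Int.cast : ℤ → ℝ)) i j = ∑ l, c l * σ i (B l j))) ∧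
    -- 2. the algebra of symmetries is constant, except possibly for a quadratic field
    (∀ (d : ℕ) (g h : Matrix (Fin d) (Fin d) ℝ) (a : ℕ → Fin d → ℝ)
        (γ : ℕ → Matrix (Fin d) (Fin d) ℤ),
      0 < d → g.det ≠ 0 → ¬ SmallValues g → IsLimit g h a γ →
      (∀ᶠ n in atTop, ∀ T, T ∈ Z h ↔
        (γ n).map (Int.cast : ℤ → ℚ) * T * ((γ n)⁻¹).map (Int.cast : ℤ → ℚ) ∈ Z g) ∨
      (Z g = Set.range (fun q : ℚ => q • (1 : Matrix (Fin d) (Fin d) ℚ)) ∧
        Module.finrank ℚ (Submodule.span ℚ (Z h)) = 2 ∧ 2 ∣ d)) := by
  refine ⟨?_, ?_⟩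
  · intro d s K hfin hk hs hks B g h a γ S hg hlim hS hrow
    exact V7H90.Iso.over_field' K hfin hk hs hks B hg hlim.prod hlim.det hlim.lim S hS hrow
  · intro d g h a γ hd hg hsm hlim
    exact V7H90.Iso.constancy' hd hg hsm hlim.prod hlim.det hlim.lim

end Pool.Agent.Results.MP_edeaa2_an.IsolationH90
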