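import Mathlib
import Pool.Agent.N759.UC.Finite
import Pool.Agent.H715R2.CountableValues
import Pool.Agent.H905R2.OppC
import Pool.Agent.V7H37.RT.Seq
import Pool.Agent.V7H37.RT.Prime
import Pool.Agent.V7H37.RT.Const

/-! # MP_edeaa2_an: near-diagonal integral matrices and return times along an orbit of the diagonal
group

Let `d ≥ 3` and `δ, ν > 0`. We consider real `d × d` matrices `g` with absolute determinant `δ` whose
product of the linear forms given by the rows is at least `ν` in absolute value at the nonzero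
integer points (`System d δ ν`); diagonal matrices of determinant one act on them. For an integral
matrix `γ` let `X h γ = h γ h⁻¹` be its matrix with respect to the linear forms of `h`.

There is `C = C(d, δ, ν)` with the following properties.

(I) Let `B ≥ 2` and let `a` be a positive diagonal matrix of determinant one with distinct entries,
`a_i ≤ B a_j`. There are `M` and a finite set `S` of matrices of `System d δ ν` whose forms are
proportional to integral forms, such that every `g` in `System d δ ν` is equivalent to an element of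
`S`, or there is `z ≤ M` such that for `h = a ^ z g` the following holds.

1. No integral matrix `γ` with irreducible characteristic polynomial is near-diagonal with size `B`
   and precision `B ^ (-C)`: not all the diagonal entries of `X h γ` are at most `B` and the other
   entries at most `B ^ (-C)` in absolute value.
2. If `d` is prime, this holds for all integral matrices `γ` which are not multiples of the identity.
3. If `d` is prime, the point `h GL_d(ℤ)` does not return to its neighbourhood of radius `B ^ (-C)`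
   under any diagonal matrix `b` of determinant one of the domain `b_i ≥ 2 / B` of the whole group of
   rank `d - 1`, apart from the bounded part where all `b_i < 2`: some entry of `b h γ h⁻¹ - 1` is
   larger than `B ^ (-C)`, for all `γ ∈ GL_d(ℤ)`.

(II) The form of `g` in `System d δ ν` is proportional to an integral form if and only if for some `B`
there is at each point `a ^ z g`, `z ≥ 0`, of the orbit in one direction `a` as above (`a_i ≤ B a_j`) an
integral matrix with irreducible characteristic polynomial which is near-diagonal with size `B` and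
precision `B ^ (-C)`. So the conjecture of Cassels and Swinnerton-Dyer says that there are such
matrices along each orbit of this kind.

With `ε = B ^ (-C)`, 3. says: for counterexamples to the conjecture (with the same `M` and `C`), and
for the forms proportional to integral forms outside finitely many classes, there are along the orbit
in each direction `a` points for which the first return to the `ε`-neighbourhood under the whole
diagonal group takes a time at least `c log (1 / ε)`. As `diag(b) g` is in `System d δ ν` too, there are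
such points in every segment of length `M(ε)` of these orbits.

The proof. Near-diagonal integral matrices at the same point commute, because their commutator is
small and integral in a bounded basis; those at `a ^ z g` and `a ^ (z+1) g` are near-diagonal at the
same point. If they exist for all `z ≤ M`, then all of them lie in one number field of degree `d` in
the algebra of rational matrices. The discriminant is a nonzero integer, so the diagonal entries have
a gap which is polynomial in `B`, and this implies that the first of these matrices has bounded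
entries with respect to the linear forms of `a ^ z g` for all `z`, uniformly. In the limit `M → ∞` it is
diagonal, so that the limit is a norm form, and the isolation theorem of the library applies. For
prime `d` an irreducible integral factor of the characteristic polynomial annihilates `γ`, since
otherwise its value at `γ` would give an integer point with a small value of the form. -/

set_option autoImplicit false

open Filter Topology

namespace Pool.Agent.Results.MP_edeaa2_an.ReturnTimesH37

/-- the product of the linear forms given by the rows of `g`, at an integer point -/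
noncomputable def F {d : ℕ} (g : Matrix (Fin d) (Fin d) ℝ) (x : Fin d → ℤ) : ℝ :=
  ∏ i : Fin d, ∑ j : Fin d, g i j * (x j : ℝ)

/-- the form is proportional to an integral form -/
def Integral {d : ℕ} (g : Matrix (Fin d) (Fin d) ℝ) : Prop :=
  ∃ c : ℝ, c ≠ 0 ∧ ∀ m : Fin d →₀ ℕ, ∃ z : ℤ, MvPolynomial.coeff m
    (c • (∏ i : Fin d, ∑ j : Fin d,
      MvPolynomial.C (g i j) * MvPolynomial.X j : MvPolynomial (Fin d) ℝ)) = (z : ℝ)

/-- the matrices with absolute determinant `δ` and form at least `ν` in absolute value at the nonzero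
integer points -/
def System (d : ℕ) (δ ν : ℝ) : Set (Matrix (Fin d) (Fin d) ℝ) :=
  {g | |g.det| = δ ∧ ∀ x : Fin d → ℤ, x ≠ 0 → ν ≤ |F g x|}

/-- `g` is obtained from `g'` by a diagonal matrix of determinant `±1` and an element of `GL_d(ℤ)` -/
def Equivalent {d : ℕ} (g g' : Matrix (Fin d) (Fin d) ℝ) : Prop :=
  ∃ (c : Fin d → ℝ) (γ : Matrix (Fin d) (Fin d) ℤ), |∏ i, c i| = 1 ∧ |γ.det| = 1 ∧
    g = Matrix.diagonal c * g' * γ.map (Int.cast : ℤ → ℝ)

/-- the matrix of `γ` with respect to the linear forms given by the rows of `h` -/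
noncomputable def X {d : ℕ} (h : Matrix (Fin d) (Fin d) ℝ) (γ : Matrix (Fin d) (Fin d) ℤ) :
    Matrix (Fin d) (Fin d) ℝ := h * γ.map (Int.cast : ℤ → ℝ) * h⁻¹

/-- the diagonal entries of `X h γ` are at most `B`, the other entries at most `η` in absolute
value -/
def NearDiagonal {d : ℕ} (B η : ℝ) (h : Matrix (Fin d) (Fin d) ℝ)
    (γ : Matrix (Fin d) (Fin d) ℤ) : Prop :=
  ∀ i j, |X h γ i j| ≤ if i = j then B else η

/-- for forms proportional to integral forms there are exactly diagonal matrices at all positions -/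
theorem exists_diagonal {d : ℕ} (hd : 3 ≤ d) {δ ν : ℝ} (hδ : 0 < δ) (hν : 0 < ν)
    {g : Matrix (Fin d) (Fin d) ℝ} (hg : g ∈ System d δ ν) (hI : Integral g) :
    ∃ γ : Matrix (Fin d) (Fin d) ℤ, Irreducible (γ.map (Int.cast : ℤ → ℚ)).charpoly ∧
      ∃ B₀ : ℝ, ∀ b : Fin d → ℝ, (∀ i, 0 < b i) → ∀ B : ℝ, B₀ ≤ B → ∀ η : ℝ, 0 ≤ η →
        NearDiagonal B η (Matrix.diagonal b * g) γ := by
  classical
  have hdet0 : g.det ≠ 0 := by
    intro h0
    have := hg.1
    rw [h0, abs_zero] at this
    exact hδ.ne this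
  have hu : IsUnit g.det := isUnit_iff_ne_zero.2 hdet0
  obtain ⟨A, -, hA, -, hker⟩ := Pool.Agent.H905R2.Opp.oppA g (by omega) hdet0 hI (fun p hp h0 => by
    have h1 := hg.2 p hp
    have h2 : F g p = H715R2.FF g (H715R2.iR p) := rfl
    rw [h2, h0, abs_zero] at h1
    linarith)
  have hoff : ∀ i j, i ≠ j → Pool.Agent.V7H37.RT.Xm g A i j = 0 := by
    intro i j hij
    have h1 := hker i (fun k => g⁻¹ k j) (by
      have h2 := congrFun (congrFun (Matrix.mul_nonsing_inv _ hu) i) j
      rw [Matrix.mul_apply, Matrix.one_apply_ne hij] at h2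
      exact h2)
    have h3 : Pool.Agent.V7H37.RT.Xm g A = g * (A.map (Int.cast : ℤ → ℝ) * g⁻¹) := by
      unfold Pool.Agent.V7H37.RT.Xm
      rw [Matrix.mul_assoc]
      rfl
    rw [h3, Matrix.mul_apply]
    exact h1
  refine ⟨A, ?_, ∑ i, |Pool.Agent.V7H37.RT.Xm g A i i|, fun b hb B hB η hη i j => ?_⟩
  · have h1 : (A.map (Int.cast : ℤ → ℚ)).charpoly = A.charpoly.map (Int.castRingHom ℚ) :=
      Matrix.charpoly_map A (Int.castRingHom ℚ)
    rw [h1]
    exact hA
  · have h1 : X (Matrix.diagonal b * g) A i j = b i * (b j)⁻¹ * Pool.Agent.V7H37.RT.Xm g A i j :=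
      Pool.Agent.V7H37.RT.Xm_diag hdet0 hb A i j
    rw [h1]
    split_ifs with hij
    · subst hij
      rw [mul_inv_cancel₀ (hb i).ne', one_mul]
      exact (Finset.single_le_sum (f := fun i => |Pool.Agent.V7H37.RT.Xm g A i i|)
        (fun _ _ => abs_nonneg _) (Finset.mem_univ i)).trans hB
    · rw [hoff i j hij, mul_zero, abs_zero]
      exact hη

theorem result (d : ℕ) (hd : 3 ≤ d) (δ ν : ℝ) (hδ : 0 < δ) (hν : 0 < ν) :
    ∃ C : ℕ,
      (∀ B : ℝ, 2 ≤ B → ∀ a : Fin d → ℝ, (∀ i, 0 < a i) → ∏ i, a i = 1 →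
        Function.Injective a → (∀ i j, a i ≤ B * a j) →
        ∃ (M : ℕ) (S : Set (Matrix (Fin d) (Fin d) ℝ)), S.Finite ∧
          (∀ g ∈ S, g ∈ System d δ ν ∧ Integral g) ∧
          ∀ g ∈ System d δ ν, (Integral g ∧ ∃ g' ∈ S, Equivalent g g') ∨
            ∃ z : ℕ, z ≤ M ∧
              (∀ γ : Matrix (Fin d) (Fin d) ℤ, Irreducible (γ.map (Int.cast : ℤ → ℚ)).charpoly →
                ¬ NearDiagonal B (1 / B ^ C) (Matrix.diagonal (fun i => a i ^ z) * g) γ) ∧
              (d.Prime →
                (∀ γ : Matrix (Fin d) (Fin d) ℤ,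
                  (∀ c : ℤ, γ ≠ c • (1 : Matrix (Fin d) (Fin d) ℤ)) →
                  ¬ NearDiagonal B (1 / B ^ C) (Matrix.diagonal (fun i => a i ^ z) * g) γ) ∧
                ∀ b : Fin d → ℝ, (∀ i, 0 < b i) → ∏ i, b i = 1 → (∃ i, 2 ≤ b i) →
                  (∀ i, 2 ≤ B * b i) → ∀ γ : Matrix (Fin d) (Fin d) ℤ, |γ.det| = 1 →
                  ∃ i j, 1 / B ^ C < |(Matrix.diagonal b *
                    X (Matrix.diagonal (fun i => a i ^ z) * g) γ - 1) i j|)) ∧
      ∀ a : Fin d → ℝ, (∀ i, 0 < a i) → ∏ i, a i = 1 → Function.Injective a →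
        ∀ g ∈ System d δ ν, Integral g ↔ ∃ B : ℝ, 2 ≤ B ∧ (∀ i j, a i ≤ B * a j) ∧
          ∀ z : ℕ, ∃ γ : Matrix (Fin d) (Fin d) ℤ,
            Irreducible (γ.map (Int.cast : ℤ → ℚ)).charpoly ∧
            NearDiagonal B (1 / B ^ C) (Matrix.diagonal (fun i => a i ^ z) * g) γ := by
  suffices hmain : ∃ C : ℕ,
      (∀ B : ℝ, 2 ≤ B → ∀ a : Fin d → ℝ, (∀ i, 0 < a i) → ∏ i, a i = 1 →
        Function.Injective a → (∀ i j, a i ≤ B * a j) →
        ∃ (M : ℕ) (S : Set (Matrix (Fin d) (Fin d) ℝ)), S.Finite ∧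
          (∀ g ∈ S, g ∈ System d δ ν ∧ Integral g) ∧
          ∀ g ∈ System d δ ν, (Integral g ∧ ∃ g' ∈ S, Equivalent g g') ∨
            ∃ z : ℕ, z ≤ M ∧
              (∀ γ : Matrix (Fin d) (Fin d) ℤ, Irreducible (γ.map (Int.cast : ℤ → ℚ)).charpoly →
                ¬ NearDiagonal B (1 / B ^ C) (Matrix.diagonal (fun i => a i ^ z) * g) γ) ∧
              (d.Prime →
                (∀ γ : Matrix (Fin d) (Fin d) ℤ,
                  (∀ c : ℤ, γ ≠ c • (1 : Matrix (Fin d) (Fin d) ℤ)) →
                  ¬ NearDiagonal B (1 / B ^ C) (Matrix.diagonal (fun i => a i ^ z) * g) γ) ∧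
                ∀ b : Fin d → ℝ, (∀ i, 0 < b i) → ∏ i, b i = 1 → (∃ i, 2 ≤ b i) →
                  (∀ i, 2 ≤ B * b i) → ∀ γ : Matrix (Fin d) (Fin d) ℤ, |γ.det| = 1 →
                  ∃ i j, 1 / B ^ C < |(Matrix.diagonal b *
                    X (Matrix.diagonal (fun i => a i ^ z) * g) γ - 1) i j|)) by
    obtain ⟨C, hC⟩ := hmain
    refine ⟨C, hC, fun a ha ha1 hinj g hg => ⟨fun hI => ?_, ?_⟩⟩
    · obtain ⟨γ, hγ, B₀, hB₀⟩ := exists_diagonal hd hδ hν hg hI
      obtain ⟨q, hq⟩ : ∃ q : ℝ, ∀ i j, a i / a j ≤ q :=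
        ⟨∑ i, ∑ j, a i / a j, fun i j =>
          (Finset.single_le_sum (f := fun j => a i / a j)
            (fun j _ => (div_pos (ha i) (ha j)).le) (Finset.mem_univ j)).trans
          (Finset.single_le_sum (f := fun i => ∑ j, a i / a j)
            (fun i _ => Finset.sum_nonneg fun j _ => (div_pos (ha i) (ha j)).le)
            (Finset.mem_univ i))⟩
      refine ⟨max 2 (max B₀ q), le_max_left _ _, fun i j => ?_, fun z => ⟨γ, hγ, ?_⟩⟩
      · have h1 := (hq i j).trans ((le_max_right B₀ q).trans (le_max_right 2 _))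
        rwa [div_le_iff₀ (ha j)] at h1
      · refine hB₀ _ (fun i => pow_pos (ha i) z) _ ((le_max_left B₀ q).trans (le_max_right 2 _)) _ ?_
        have : (0 : ℝ) < max 2 (max B₀ q) := lt_of_lt_of_le (by norm_num) (le_max_left _ _)
        positivity
    · rintro ⟨B, hB, haB, hall⟩
      obtain ⟨M, S, -, -, h⟩ := hC B hB a ha ha1 hinj haB
      rcases h g hg with h1 | ⟨z, -, h2, -⟩
      · exact h1.1
      · obtain ⟨γ, hγ, hND⟩ := hall z
        exact absurd hND (h2 γ hγ)
  classical
  obtain ⟨R, hR⟩ := H715R2.exists_bound (d := d) (by omega) δ ν hδ hν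
  have hR' : ∀ h : Matrix (Fin d) (Fin d) ℝ, |h.det| = δ → H715R2.HasNu h ν →
      ∃ γ : Matrix (Fin d) (Fin d) ℤ, IsUnit γ.det ∧ ∀ i j, |(h * H715R2.zR γ) i j| ≤ |R| := by
    intro h h1 h2
    obtain ⟨γ, hγ, hγR⟩ := hR h h1 h2
    exact ⟨γ, hγ, fun i j => (hγR i j).trans (le_abs_self R)⟩
  obtain ⟨C₀, hC₀⟩ := Pool.Agent.V7H37.RT.exists_consts d |R|
    (δ⁻¹ * (d.factorial * (max |R| 1) ^ d)) hν
  refine ⟨C₀ + 1, fun B hB a ha ha1 hinj haB => ?_⟩
  have hB0 : 0 < B := by linarith
  have hB1 : 1 ≤ B := by linarith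
  obtain ⟨c1, c2, c3, c4⟩ := hC₀ C₀ le_rfl B hB
  set η : ℝ := 1 / B ^ C₀ with hη
  have hη0 : 0 < η := by positivity
  have hη1 : η ≤ 1 := by
    rw [hη, div_le_one (by positivity)]
    exact one_le_pow₀ hB1
  have hηη : 1 / B ^ (C₀ + 1) ≤ η := by
    rw [hη]
    exact one_div_le_one_div_of_le (by positivity) (pow_le_pow_right₀ hB1 (Nat.le_succ _))
  have hηB : 1 / B ^ (C₀ + 1) * B = η := by
    rw [hη, pow_succ]
    field_simp
  set Bad : Matrix (Fin d) (Fin d) ℝ → ℕ → Prop := fun g M => ∀ z : ℕ, z ≤ M →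
    ∃ γ : Matrix (Fin d) (Fin d) ℤ, Pool.Agent.V7H37.RT.Irr γ ∧ Pool.Agent.V7H37.RT.ND B η
      (Pool.Agent.V7H37.RT.Xm (Matrix.diagonal (fun t => a t ^ z) * g) γ) with hBad
  obtain ⟨M, S, hS, hSm, hM⟩ := Pool.Agent.N759.UC.finite_classes d δ ν Bad
    (fun g N hN hg hnu hbad => Pool.Agent.V7H37.RT.bad_seq hd hδ hν hR' ha ha1 hinj hB1 hη0.le hη1
      haB c1 c2 c3 g N hN hg hnu hbad)
  refine ⟨M, S, hS, fun g hg => ⟨⟨(hSm g hg).1, (hSm g hg).2.1⟩, (hSm g hg).2.2⟩, fun g hg => ?_⟩
  by_cases hbad : Bad g M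
  · exact Or.inl (hM g hg.1 hg.2 hbad)
  right
  rw [hBad] at hbad
  simp only [not_forall] at hbad
  obtain ⟨z, hzM, hz⟩ := hbad
  refine ⟨z, hzM, ?_⟩
  set h : Matrix (Fin d) (Fin d) ℝ := Matrix.diagonal (fun i => a i ^ z) * g with hh
  -- no near-diagonal matrices with irreducible characteristic polynomial
  have hirr : ∀ γ : Matrix (Fin d) (Fin d) ℤ, Pool.Agent.V7H37.RT.Irr γ →
      ¬ Pool.Agent.V7H37.RT.ND B η (Pool.Agent.V7H37.RT.Xm h γ) := fun γ h1 h2 => hz ⟨γ, h1, h2⟩
  have hpos : ∀ i, 0 < a i ^ z := fun i => pow_pos (ha i) z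
  have hprod : ∏ i, a i ^ z = 1 := by rw [Finset.prod_pow, ha1, one_pow]
  have hdet : |h.det| = δ := by
    rw [hh, Matrix.det_mul, Matrix.det_diagonal, hprod, one_mul]
    exact hg.1
  have hdet0 : h.det ≠ 0 := by
    intro h0
    rw [h0, abs_zero] at hdet
    exact hδ.ne hdet
  have hnu : H715R2.HasNu h ν := by
    intro m hm
    rw [hh, H715R2.FF_diag_mul, hprod, one_mul]
    exact hg.2 m hm
  refine ⟨fun γ hγ hND => ?_, fun hp => ?_⟩
  · refine hirr γ hγ fun i j => (hND i j).trans ?_
    split_ifs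
    · exact le_rfl
    · exact hηη
  -- prime dimension
  obtain ⟨V, hV, hVR⟩ := hR' h hdet hnu
  have hns : ∀ γ : Matrix (Fin d) (Fin d) ℤ, (∀ c : ℤ, γ ≠ c • (1 : Matrix (Fin d) (Fin d) ℤ)) →
      ¬ Pool.Agent.V7H37.RT.ND B η (Pool.Agent.V7H37.RT.Xm h γ) := fun γ hγ hND =>
    hirr γ (Pool.Agent.V7H37.RT.irr_of_near hp hdet0 hnu hV (abs_nonneg R) hVR hB1 hη0.le
      (hη1.trans hB1) hND c4 hγ) hND
  refine ⟨fun γ hγ hND => hns γ hγ fun i j => (hND i j).trans ?_, ?_⟩
  · split_ifs
    · exact le_rfl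
    · exact hηη
  intro b hb hb1 hb2 hbB γ hγ
  by_contra hcon
  push Not at hcon
  have hη2 : 1 / B ^ (C₀ + 1) ≤ 1 / 2 := by
    have : 1 / B ^ (C₀ + 1) ≤ 1 / B ^ 1 :=
      one_div_le_one_div_of_le (by positivity) (pow_le_pow_right₀ hB1 (by omega))
    refine this.trans ?_
    rw [pow_one]
    exact one_div_le_one_div_of_le (by norm_num) hB
  have hent : ∀ i j, |b i * X h γ i j - (if i = j then 1 else 0)| ≤ 1 / B ^ (C₀ + 1) := by
    intro i j
    have h1 := hcon i j
    rw [Matrix.sub_apply, Matrix.diagonal_mul, Matrix.one_apply] at h1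
    exact h1
  have hbinv : ∀ i, (b i)⁻¹ ≤ B / 2 := by
    intro i
    rw [inv_le_comm₀ (hb i) (by positivity), inv_div, div_le_iff₀ hB0]
    have := hbB i
    linarith
  refine hns γ ?_ fun i j => ?_
  · rintro c rfl
    obtain ⟨i, hi⟩ := hb2
    have h1 : |c| = 1 := by
      have h2 : (c • (1 : Matrix (Fin d) (Fin d) ℤ)).det = c ^ d := by
        rw [Matrix.det_smul, Matrix.det_one, mul_one, Fintype.card_fin]
      rw [h2, abs_pow] at hγ
      exact (pow_eq_one_iff_of_nonneg (abs_nonneg c) (by omega)).1 hγ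
    have hXc : X h (c • (1 : Matrix (Fin d) (Fin d) ℤ)) i i = c := by
      have hu : IsUnit h.det := isUnit_iff_ne_zero.2 hdet0
      have e : (c • (1 : Matrix (Fin d) (Fin d) ℤ)).map (Int.cast : ℤ → ℝ) =
          (c : ℝ) • (1 : Matrix (Fin d) (Fin d) ℝ) := by
        ext k l
        rw [Matrix.map_apply, Matrix.smul_apply, Matrix.smul_apply, Matrix.one_apply,
          Matrix.one_apply]
        split_ifs <;> simp
      unfold X
      rw [e, Matrix.mul_smul, Matrix.mul_one, Matrix.smul_mul, Matrix.mul_nonsing_inv _ hu,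
        Matrix.smul_apply, Matrix.one_apply_eq, smul_eq_mul, mul_one]
    have h2 := (hent i i).trans hη2
    rw [hXc, if_pos rfl] at h2
    have h3 := abs_le.1 h2
    rcases eq_or_eq_neg_of_abs_eq h1 with h4 | h4
    · rw [h4] at h3
      push_cast at h3
      linarith [h3.2]
    · rw [h4] at h3
      push_cast at h3
      linarith [h3.1]
  · have h1 := hent i j
    have h2 : Pool.Agent.V7H37.RT.Xm h γ i j = (b i)⁻¹ * (b i * X h γ i j) := by
      rw [← mul_assoc, inv_mul_cancel₀ (hb i).ne', one_mul]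
      rfl
    rw [h2, abs_mul, abs_of_pos (inv_pos.2 (hb i))]
    split_ifs with hij
    · rw [if_pos hij] at h1
      have h3 : |b i * X h γ i j| ≤ 2 := by
        have h4 := abs_le.1 (h1.trans hη2)
        rw [abs_le]
        constructor <;> linarith [h4.1, h4.2]
      calc (b i)⁻¹ * |b i * X h γ i j| ≤ B / 2 * 2 :=
            mul_le_mul (hbinv i) h3 (abs_nonneg _) (by positivity)
        _ = B := by ring
    · rw [if_neg hij, sub_zero] at h1
      calc (b i)⁻¹ * |b i * X h γ i j| ≤ B / 2 * (1 / B ^ (C₀ + 1)) :=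
            mul_le_mul (hbinv i) h1 (abs_nonneg _) (by positivity)
        _ = η / 2 := by rw [← hηB]; ring
        _ ≤ η := by linarith

end Pool.Agent.Results.MP_edeaa2_an.ReturnTimesH37
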