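import Mathlib
import Pool.Agent.V7H90.Tens.Final

/-! # MP_edeaa2_an: tensor products of binary lattices with algebraic limit points

Let `g_1, …, g_r` be real invertible `2 × 2` matrices, the first row of `g_i` proportional to
`(α_i, 1)` with an irrational number `α_i`, the second row arbitrary, and let `G` be a real
invertible `m × m` matrix (`m = 1`, `G = 1` is allowed).  The product of the `d = 2^r m` linear forms
given by the rows of the Kronecker product `g_1 ⊗ … ⊗ g_r ⊗ G` is considered at integer points.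

For each `i` let `ξ_i` be a limit point of the complete quotients `[a_n; a_(n+1), …]` of `α_i`, or of
the numbers `-q_(n-1) / q_n = -[0; a_n, …, a_1]`, and let `G'` be a limit of matrices
`diag(A) G Γ`, `A` of product `±1`, `Γ` unimodular (for instance `G' = G`).

1. Let `d ≥ 3`, and let the `ξ_i` and the numbers proportional to one row of `G'` lie in a real number
field of degree at most `d`.  Then the product takes arbitrarily small values at nonzero integer
points, or it is proportional to an integral form, and then all `α_i` are quadratic irrationals and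
the second row of `g_i` is proportional to `(α_i', 1)`, where `α_i'` is the conjugate of `α_i`.

2. Let `r ≥ 2`, and for every `i` let the continued fraction of `α_i` contain arbitrarily long runs of
one block (at arbitrary places), or more generally let one of the limit points `ξ_i` be a root of a
rational quadratic equation.  Then the product of the rows of `g_1 ⊗ … ⊗ g_r` is bounded away from
zero at the nonzero integer points if and only if it is, up to a constant, a norm form of a real
multiquadratic field: all `α_i` are quadratic irrationals, the second row of `g_i` is proportional to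
`(α_i', 1)`, and the `2^r` products of the `α_i` are linearly independent over `ℚ`.

For example let `r = 1` and let `G` be the matrix of the conjugates of an integral basis of a totally
real number field `K ≠ ℚ`: the values are `N(a α + b) N(a β + b)`, `a, b` integers of `K`.

The proof: the limits of the factors exist if the complete quotients are bounded, and give limits of
the Kronecker product; to a limit with a row in a number field of degree at most `d` the start file
theorem `AlgebraicFactor` (`Pool.Agent.H715R2.LimitAlg`) applies. -/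

set_option autoImplicit false

open Matrix Kronecker Filter Topology Pool.Agent.N759.CFr

namespace Pool.Agent.Results.MP_edeaa2_an.TensorProductsH90

/-- the tensor product of the `2 × 2` matrices `g i` -/
def tensor {r : ℕ} (g : Fin r → Matrix (Fin 2) (Fin 2) ℝ) :
    Matrix (Fin r → Fin 2) (Fin r → Fin 2) ℝ :=
  Matrix.of fun a b => ∏ i, g i (a i) (b i)

/-- the product of the linear forms given by the rows of `S` takes arbitrarily small values at
nonzero integer points -/
def Small {ι : Type} [Fintype ι] (S : Matrix ι ι ℝ) : Prop :=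
  ∀ ε : ℝ, 0 < ε → ∃ x : ι → ℤ, x ≠ 0 ∧ |∏ i, (S *ᵥ fun j => (x j : ℝ)) i| < ε

/-- the product of the linear forms given by the rows of `S` is proportional to an integral form -/
def Integral {ι : Type} [Fintype ι] (S : Matrix ι ι ℝ) : Prop :=
  ∃ c : ℝ, c ≠ 0 ∧ ∀ m : ι →₀ ℕ, ∃ z : ℤ, MvPolynomial.coeff m
    (c • (∏ i : ι, ∑ j : ι, MvPolynomial.C (S i j) * MvPolynomial.X j : MvPolynomial ι ℝ)) = (z : ℝ)

/-- `G'` is a limit of matrices `diag(A) G Γ`, `A` of product `±1`, `Γ` unimodular -/
def IsLimit {m : ℕ} (G G' : Matrix (Fin m) (Fin m) ℝ) : Prop :=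
  ∃ (A : ℕ → Fin m → ℝ) (Γ : ℕ → Matrix (Fin m) (Fin m) ℤ), (∀ n, |∏ i, A n i| = 1) ∧
    (∀ n, |(Γ n).det| = 1) ∧
    Tendsto (fun n => diagonal (A n) * G * (Γ n).map (Int.cast : ℤ → ℝ)) atTop (𝓝 G')

/-- the denominators of the convergents of `α`: `den α (n + 1) = q_n` and `den α 0 = q_(-1) = 0` -/
noncomputable def den (α : ℝ) : ℕ → ℤ
  | 0 => 0
  | 1 => 1
  | k + 2 => pq α (k + 1) * den α (k + 1) + den α k

/-- `ξ` is a limit point of the complete quotients `[a_n; a_(n+1), …]` of `α`, or of the numbers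
`-q_(n-1) / q_n = -[0; a_n, …, a_1]` -/
def LimitPoint (α ξ : ℝ) : Prop :=
  MapClusterPt ξ atTop (cq α) ∨
    MapClusterPt ξ atTop (fun n : ℕ => -((den α n : ℝ) / (den α (n + 1) : ℝ)))

/-- the partial quotients of `α` contain arbitrarily long runs `u_0 … u_(p-1) u_0 … u_(p-1) …` of
one block -/
def Runs (α : ℝ) : Prop :=
  ∃ (p : ℕ) (u : ℕ → ℤ), 0 < p ∧ (∀ j, u (j + p) = u j) ∧
    ∀ N : ℕ, ∃ s : ℕ, ∀ j < N, pq α (s + j) = u j

/-- `α` is a root of a rational quadratic polynomial, and the second row of `g` is proportional to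
`(α', 1)`, where `α'` is the other root -/
def Conj (α : ℝ) (g : Matrix (Fin 2) (Fin 2) ℝ) : Prop :=
  ∃ p q : ℚ, α ^ 2 = p * α + q ∧ g 1 0 = (p - α) * g 1 1

lemma den_eq (α : ℝ) (n : ℕ) : den α n = V7H90.Tens.den α n := by
  induction n using Nat.strong_induction_on with
  | _ n ih =>
    match n with
    | 0 => rfl
    | 1 => rfl
    | n + 2 => rw [den, V7H90.Tens.den, ih (n + 1) (by omega), ih n (by omega)]

lemma limitPoint_iff (α ξ : ℝ) : LimitPoint α ξ ↔ V7H90.Tens.Limit α ξ := by
  unfold LimitPoint V7H90.Tens.Limit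
  simp only [den_eq]

lemma lim_of {m : ℕ} {G G' : Matrix (Fin m) (Fin m) ℝ} (h : IsLimit G G') :
    V7H90.Tens.Lim G G' := by
  obtain ⟨A, Γ, hA, hΓ, hlim⟩ := h
  exact ⟨A, Γ, fun n => (Γ n)⁻¹, hA,
    fun n => nonsing_inv_mul _ (Int.isUnit_iff_abs_eq.2 (hΓ n)), hlim⟩

theorem result (r m : ℕ) (α : Fin r → ℝ) (hα : ∀ i, Irrational (α i))
    (g : Fin r → Matrix (Fin 2) (Fin 2) ℝ) (hdet : ∀ i, (g i).det ≠ 0)
    (hg : ∀ i, g i 0 0 = α i * g i 0 1) :
    (3 ≤ 2 ^ r * m → ∀ ξ : Fin r → ℝ, (∀ i, LimitPoint (α i) (ξ i)) →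
      ∀ G G' : Matrix (Fin m) (Fin m) ℝ, G.det ≠ 0 → IsLimit G G' →
      ∀ K : IntermediateField ℚ ℝ, FiniteDimensional ℚ K → Module.finrank ℚ K ≤ 2 ^ r * m →
        (∀ i, ξ i ∈ K) → (∃ (t : Fin m) (s : ℝ), s ≠ 0 ∧ ∀ j, s * G' t j ∈ K) →
      Small (tensor g ⊗ₖ G) ∨ (Integral (tensor g ⊗ₖ G) ∧ ∀ i, Conj (α i) (g i))) ∧
    (2 ≤ r → (∀ i, Runs (α i) ∨ ∃ ξ : ℝ, LimitPoint (α i) ξ ∧
        ∃ p q : ℚ, ξ ^ 2 = p * ξ + q) →
      (¬ Small (tensor g) ↔ (∀ i, Conj (α i) (g i)) ∧
        LinearIndependent ℚ (fun I : Finset (Fin r) => ∏ i ∈ I, α i))) := by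
  refine ⟨?_, ?_⟩
  · rintro hd ξ hξ G G' hG hlim K hfin hK hξK ⟨t, s, hs, hGK⟩
    exact V7H90.Tens.part_two α hα g hdet hg hd ξ (fun i => (limitPoint_iff _ _).1 (hξ i)) hG
      (lim_of hlim) t K hfin hK hξK s hs hGK
  · intro hr h
    have h1 : ∀ i, ∃ ξ : ℝ, V7H90.Tens.Limit (α i) ξ ∧ ∃ p q : ℚ, ξ ^ 2 = p * ξ + q := by
      intro i
      rcases h i with h2 | ⟨ξ, h2, h3⟩
      · exact V7H90.Tens.quad_limit (hα i) h2
      · exact ⟨ξ, (limitPoint_iff _ _).1 h2, h3⟩
    choose ξ hξ hq using h1
    have h2 := V7H90.Tens.part_three α hα g hdet hg hr ξ hξ hq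
    exact (not_congr h2).trans not_not

end Pool.Agent.Results.MP_edeaa2_an.TensorProductsH90
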